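import Pool.Agent.Helper99.DF.St

/-!
# DF module ALG: the limits on one run are algebraic
-/

set_option autoImplicit false

namespace Pool.Agent.Helper57.DF

open Pool.Agent.Helper99.DF

/-- The polynomials of a run. -/
noncomputable def B : ℕ → Polynomial ℚ
  | 0 => 1
  | 1 => Polynomial.X
  | 2 => Polynomial.X ^ 2 - Polynomial.X
  | (j + 3) => Polynomial.X * (B (j + 2) - B (j + 1)) + B j

theorem B_zero : B 0 = 1 := by rw [B]

theorem B_one : B 1 = Polynomial.X := by rw [B]

theorem B_two : B 2 = Polynomial.X ^ 2 - Polynomial.X := by rw [B]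

theorem B_step (j : ℕ) : B (j + 3) = Polynomial.X * (B (j + 2) - B (j + 1)) + B j := by rw [B]

/-- The three identities. -/
theorem ids (j : ℕ) :
    B (j + 1) ^ 2 - B j * B (j + 2) - B (j + 1) = 0 ∧
    B (j + 2) ^ 2 + Polynomial.X * B (j + 1) ^ 2 - Polynomial.X * B (j + 1) * B (j + 2)
      - B (j + 1) * B j - B (j + 2) = 0 ∧
    B j ^ 2 + Polynomial.X * B (j + 1) ^ 2 - Polynomial.X * B (j + 1) * B j
      - B (j + 1) * B (j + 2) - B j = 0 := by
  induction j with
  | zero =>
    simp only [Nat.zero_add, B_zero, B_one, B_two]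
    refine ⟨by ring, by ring, by ring⟩
  | succ j ih =>
    obtain ⟨h1, h2, h3⟩ := ih
    have e : B (j + 1 + 2) = Polynomial.X * (B (j + 2) - B (j + 1)) + B j := B_step j
    have e2 : j + 1 + 1 = j + 2 := rfl
    rw [e, e2]
    refine ⟨?_, ?_, ?_⟩
    · linear_combination h2
    · linear_combination Polynomial.X * h2 + h3 - Polynomial.X * h1
    · linear_combination h1

/-- Coefficients: monic of degree `j`. -/
theorem coeffs (j : ℕ) :
    ((∀ i, j < i → (B j).coeff i = 0) ∧ (B j).coeff j = 1) ∧
    ((∀ i, j + 1 < i → (B (j + 1)).coeff i = 0) ∧ (B (j + 1)).coeff (j + 1) = 1) ∧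
    ((∀ i, j + 2 < i → (B (j + 2)).coeff i = 0) ∧ (B (j + 2)).coeff (j + 2) = 1) := by
  induction j with
  | zero =>
    simp only [Nat.zero_add, B_zero, B_one, B_two]
    refine ⟨⟨?_, ?_⟩, ⟨?_, ?_⟩, ⟨?_, ?_⟩⟩
    · intro i hi
      rw [Polynomial.coeff_one, if_neg (by omega)]
    · simp
    · intro i hi
      rw [Polynomial.coeff_X, if_neg (by omega)]
    · simp
    · intro i hi
      rw [Polynomial.coeff_sub, Polynomial.coeff_X_pow, Polynomial.coeff_X, if_neg (by omega),
        if_neg (by omega), sub_zero]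
    · rw [Polynomial.coeff_sub, Polynomial.coeff_X_pow, Polynomial.coeff_X, if_pos rfl,
        if_neg (by omega), sub_zero]
  | succ j ih =>
    obtain ⟨⟨a0, a1⟩, ⟨b0, b1⟩, ⟨c0, c1⟩⟩ := ih
    refine ⟨⟨b0, b1⟩, ⟨c0, c1⟩, ⟨?_, ?_⟩⟩
    · intro i hi
      have e : B (j + 1 + 2) = Polynomial.X * (B (j + 2) - B (j + 1)) + B j := B_step j
      rw [e]
      obtain ⟨k, rfl⟩ : ∃ k, i = k + 1 := ⟨i - 1, by omega⟩
      rw [Polynomial.coeff_add, Polynomial.coeff_X_mul, Polynomial.coeff_sub,
        c0 k (by omega), b0 k (by omega), a0 (k + 1) (by omega)]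
      ring
    · have e : B (j + 1 + 2) = Polynomial.X * (B (j + 2) - B (j + 1)) + B j := B_step j
      rw [e]
      have e3 : j + 1 + 2 = (j + 2) + 1 := rfl
      rw [e3, Polynomial.coeff_add, Polynomial.coeff_X_mul, Polynomial.coeff_sub,
        c1, b0 (j + 2) (by omega), a0 (j + 2 + 1) (by omega)]
      ring

theorem hALG : StALG := by
  intro l r F hlr hl hr hpos hrec
  set s : ℝ := F (l + 1) with hs
  have hval : ∀ j, (l + j ≤ r → F (l + j) = Polynomial.aeval s (B j)) ∧
      (l + (j + 1) ≤ r → F (l + (j + 1)) = Polynomial.aeval s (B (j + 1))) := by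
    intro j
    induction j with
    | zero =>
      refine ⟨fun _ => ?_, fun _ => ?_⟩
      · rw [B_zero, map_one, Nat.add_zero, hl]
      · rw [Nat.zero_add, B_one, Polynomial.aeval_X]
    | succ j ih =>
      obtain ⟨h1, h2⟩ := ih
      refine ⟨h2, fun hle => ?_⟩
      have v0 := h1 (by omega)
      have v1 := h2 (by omega)
      have hr1 := hrec (l + (j + 1)) (by omega) (by omega)
      have e1 : l + (j + 1) - 1 = l + j := by omega
      have e2 : l + (j + 1) + 1 = l + (j + 1 + 1) := by omega
      rw [e1, e2] at hr1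
      have hp := hpos (l + j) (by omega) (by omega)
      have hid := congrArg (Polynomial.aeval s) (ids j).1
      rw [map_sub, map_sub, map_pow, map_mul, map_zero] at hid
      rw [← v0, ← v1] at hid
      have hz : F (l + j) * F (l + (j + 1 + 1)) = F (l + j) * Polynomial.aeval s (B (j + 2)) := by
        linarith
      exact mul_left_cancel₀ (by linarith) hz
  have halg : IsAlgebraic ℚ s := by
    refine ⟨B (r - l) - 1, ?_, ?_⟩
    · intro h0
      have h1 := congrArg (fun p => Polynomial.coeff p (r - l)) h0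
      simp only [Polynomial.coeff_sub, Polynomial.coeff_zero] at h1
      rw [(coeffs (r - l)).1.2, Polynomial.coeff_one, if_neg (by omega)] at h1
      norm_num at h1
    · have h1 := (hval (r - l)).1 (by omega)
      have e : l + (r - l) = r := by omega
      rw [e, hr] at h1
      rw [map_sub, map_one, ← h1]
      ring
  intro k hk1 hk2
  have h1 := (hval (k - l)).1 (by omega)
  have e : l + (k - l) = k := by omega
  rw [e] at h1
  rw [h1]
  have h2 : s ∈ integralClosure ℚ ℝ := isAlgebraic_iff_isIntegral.mp halg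
  have h3 : Algebra.adjoin ℚ {s} ≤ integralClosure ℚ ℝ :=
    Algebra.adjoin_le (Set.singleton_subset_iff.mpr h2)
  have h4 : Polynomial.aeval s (B (k - l)) ∈ integralClosure ℚ ℝ :=
    h3 (Polynomial.aeval_mem_adjoin_singleton ℚ s)
  exact isAlgebraic_iff_isIntegral.mpr h4

end Pool.Agent.Helper57.DF
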